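import Pool.Agent.Y300.KS.Stm

/-! KS-ALT: the alternating sum of the square roots of the trinomial probabilities is small. -/

open Set MeasureTheory ProbabilityTheory Filter Topology

namespace Pool.Agent.Y252.KS

open Pool.Agent.K300 Pool.Agent.Y300.KS

/-- summation by parts -/
lemma four_alt (f : ℕ → ℝ) (N : ℕ) :
    4 * ∑ i ∈ Finset.range N, (-1:ℝ) ^ i * f i =
      3 * f 0 - f 1 - (-1) ^ N * (3 * f N - f (N + 1)) +
        ∑ i ∈ Finset.range N, (-1:ℝ) ^ i * (f i - 2 * f (i + 1) + f (i + 2)) := by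
  induction N with
  | zero => simp
  | succ N ih =>
    rw [Finset.sum_range_succ, Finset.sum_range_succ, mul_add, ih]
    rw [pow_succ]; ring

lemma four_alt_le (f : ℕ → ℝ) (hf : ∀ i, 0 ≤ f i) (n : ℕ) (h1 : f (n + 1) = 0)
    (h2 : f (n + 2) = 0) :
    4 * |∑ i ∈ Finset.range (n + 1), (-1:ℝ) ^ i * f i| ≤
      3 * f 0 + f 1 + ∑ i ∈ Finset.range (n + 1), |f i - 2 * f (i + 1) + f (i + 2)| := by
  have h := four_alt f (n + 1)
  have h4 : (4:ℝ) * |∑ i ∈ Finset.range (n + 1), (-1:ℝ) ^ i * f i| =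
      |4 * ∑ i ∈ Finset.range (n + 1), (-1:ℝ) ^ i * f i| := by
    rw [abs_mul]; norm_num
  rw [h4, h, h1, h2]
  have h3 : |∑ i ∈ Finset.range (n + 1), (-1:ℝ) ^ i * (f i - 2 * f (i + 1) + f (i + 2))| ≤
      ∑ i ∈ Finset.range (n + 1), |f i - 2 * f (i + 1) + f (i + 2)| := by
    refine (Finset.abs_sum_le_sum_abs _ _).trans (Finset.sum_le_sum fun i _ => ?_)
    rw [abs_mul, abs_pow]; simp
  have h5 := abs_le.1 h3
  have h0 := hf 0
  have h1' := hf 1
  rw [abs_le]
  constructor <;> linarith [h5.1, h5.2]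

/-- the real inequality -/
lemma sqrt_sum_le {X Y e d : ℝ} (hX : 0 ≤ X) (hY : 0 ≤ Y) (h1 : |X - 1| ≤ e) (h2 : |Y - 1| ≤ e)
    (h3 : X * Y ≤ 1) (h4 : 1 - d ≤ X * Y) : |√X + √Y - 2| ≤ d + e ^ 2 := by
  have hr := Real.sqrt_nonneg X
  have hq := Real.sqrt_nonneg Y
  have hrX : √X ^ 2 = X := Real.sq_sqrt hX
  have hqY : √Y ^ 2 = Y := Real.sq_sqrt hY
  have key : ∀ Z : ℝ, 0 ≤ Z → |Z - 1| ≤ e → |√Z - 1| ≤ e := by
    intro Z hZ h
    have h0 := Real.sqrt_nonneg Z
    have hZ2 : √Z ^ 2 = Z := Real.sq_sqrt hZ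
    have : |Z - 1| = |√Z - 1| * (√Z + 1) := by
      have e1 : Z - 1 = (√Z - 1) * (√Z + 1) := by nlinarith
      conv_lhs => rw [e1]
      rw [abs_mul, abs_of_nonneg (by linarith : 0 ≤ √Z + 1)]
    have h5 := abs_nonneg (√Z - 1)
    nlinarith
  have k1 := key X hX h1
  have k2 := key Y hY h2
  have h5 : √X * √Y = √(X * Y) := (Real.sqrt_mul hX Y).symm
  have h6 : √(X * Y) ≤ 1 := by
    rw [← Real.sqrt_one]; exact Real.sqrt_le_sqrt h3
  have h7 : X * Y ≤ √(X * Y) := by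
    have h8 := Real.sqrt_nonneg (X * Y)
    have h9 : √(X * Y) ^ 2 = X * Y := Real.sq_sqrt (mul_nonneg hX hY)
    nlinarith
  have h8 : √X + √Y - 2 = -(1 - √X * √Y) - (√X - 1) * (√Y - 1) := by ring
  have h9 : |(√X - 1) * (√Y - 1)| ≤ e ^ 2 := by
    rw [abs_mul, sq]
    exact mul_le_mul k1 k2 (abs_nonneg _) ((abs_nonneg _).trans k1)
  have h10 := abs_le.1 h9
  rw [h8, abs_le]
  rw [h5]
  constructor <;> nlinarith [h10.1, h10.2, sq_nonneg e]

lemma one_add_sq_le (x : ℝ) (hx : 0 ≤ x) : (1 + x) ^ 2 ≤ 2 * Real.exp x := by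
  have := Real.quadratic_le_exp_of_nonneg hx
  nlinarith

/-! ### the ratios -/

lemma pr_succ {n I J i j : ℕ} (h : i + 1 + j ≤ n) (hn : 0 < n) :
    pr n I J (i + 1, j) * (((i:ℝ) + 1) * ((n - I - J : ℕ) : ℝ)) =
      pr n I J (i, j) * (((n - i - j : ℕ) : ℝ) * I) := by
  obtain ⟨k, hk⟩ : ∃ k, n - i - j = k + 1 := ⟨n - i - j - 1, by omega⟩
  have hk' : n - (i + 1) - j = k := by omega
  unfold pr
  simp only
  rw [hk, hk', Nat.factorial_succ k, Nat.factorial_succ i]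
  have h1 : (i.factorial : ℝ) ≠ 0 := by positivity
  have h2 : (j.factorial : ℝ) ≠ 0 := by positivity
  have h3 : (k.factorial : ℝ) ≠ 0 := by positivity
  have h4 : (n : ℝ) ≠ 0 := by positivity
  have h5 : ((i:ℝ) + 1) ≠ 0 := by positivity
  have h6 : ((k:ℝ) + 1) ≠ 0 := by positivity
  push_cast
  rw [pow_succ, pow_succ]
  field_simp

lemma pr_nonneg (n I J : ℕ) (m : ℕ × ℕ) : 0 ≤ pr n I J m := by
  unfold pr; positivity

lemma sp_nonneg (n I J : ℕ) (m : ℕ × ℕ) : 0 ≤ sp n I J m := Real.sqrt_nonneg _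

lemma sp_sq (n I J : ℕ) (m : ℕ × ℕ) : sp n I J m ^ 2 = pr n I J m :=
  Real.sq_sqrt (pr_nonneg _ _ _ _)

/-- the terms -/
noncomputable def aa (n I J : ℕ) (u v : ℝ) (i j : ℕ) : ℝ :=
  if i + j ≤ n then sp n I J (i, j) * Real.exp (sx n I i * u + sx n J j * v) else 0

lemma aa_nonneg (n I J : ℕ) (u v : ℝ) (i j : ℕ) : 0 ≤ aa n I J u v i j := by
  unfold aa
  split_ifs
  · exact mul_nonneg (sp_nonneg _ _ _ _) (Real.exp_pos _).le
  · exact le_rfl

lemma sx_succ (n I i : ℕ) : sx n I (i + 1) = sx n I i + 1 / ell n := by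
  unfold sx; push_cast; ring

/-- the step in the first variable -/
lemma aa_succ {n I J i j : ℕ} (h : i + 1 + j ≤ n) (hn : 0 < n) (hK : I + J < n) (u v : ℝ) :
    aa n I J u v (i + 1) j = aa n I J u v i j *
      √((((n - i - j : ℕ) : ℝ) * I) / (((i:ℝ) + 1) * ((n - I - J : ℕ) : ℝ)) *
        Real.exp (2 * u / ell n)) := by
  have h1 : i + j ≤ n := by omega
  unfold aa
  rw [if_pos h, if_pos h1]
  have hK' : (0:ℝ) < ((n - I - J : ℕ) : ℝ) := by
    have : 0 < n - I - J := by omega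
    exact_mod_cast this
  have hi : (0:ℝ) < (i:ℝ) + 1 := by positivity
  have h2 : pr n I J (i + 1, j) = pr n I J (i, j) *
      ((((n - i - j : ℕ) : ℝ) * I) / (((i:ℝ) + 1) * ((n - I - J : ℕ) : ℝ))) := by
    rw [mul_div_assoc', eq_div_iff (by positivity), ← pr_succ h hn]
  have h3 : Real.exp (2 * u / ell n) = Real.exp (u / ell n) ^ 2 := by
    rw [← Real.exp_nat_mul]; congr 1; push_cast; ring
  have h4 : sp n I J (i + 1, j) = sp n I J (i, j) *
      √((((n - i - j : ℕ) : ℝ) * I) / (((i:ℝ) + 1) * ((n - I - J : ℕ) : ℝ))) := by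
    unfold sp
    rw [h2, Real.sqrt_mul (pr_nonneg _ _ _ _)]
  rw [h4, Real.sqrt_mul (by positivity), h3, Real.sqrt_sq (Real.exp_pos _).le, sx_succ]
  have h5 : Real.exp ((sx n I i + 1 / (ell n : ℝ)) * u + sx n J j * v) =
      Real.exp (sx n I i * u + sx n J j * v) * Real.exp (u / ell n) := by
    rw [← Real.exp_add]; congr 1; ring
  rw [h5]; ring

/-- the step back in the first variable -/
lemma aa_pred {n I J i j : ℕ} (h : i + 1 + j ≤ n) (hn : 0 < n) (hI : 0 < I) (u v : ℝ) :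
    aa n I J u v i j = aa n I J u v (i + 1) j *
      √((((i:ℝ) + 1) * ((n - I - J : ℕ) : ℝ)) / (((n - i - j : ℕ) : ℝ) * I) *
        Real.exp (-(2 * u) / ell n)) := by
  have h1 : i + j ≤ n := by omega
  unfold aa
  rw [if_pos h, if_pos h1]
  have hI' : (0:ℝ) < (I : ℝ) := by exact_mod_cast hI
  have hk : (0:ℝ) < ((n - i - j : ℕ) : ℝ) := by
    have : 0 < n - i - j := by omega
    exact_mod_cast this
  have h2 : pr n I J (i, j) = pr n I J (i + 1, j) *
      ((((i:ℝ) + 1) * ((n - I - J : ℕ) : ℝ)) / (((n - i - j : ℕ) : ℝ) * I)) := by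
    rw [mul_div_assoc', eq_div_iff (by positivity), ← pr_succ h hn]
  have h3 : Real.exp (-(2 * u) / ell n) = Real.exp (-(u / ell n)) ^ 2 := by
    rw [← Real.exp_nat_mul]; congr 1; push_cast; ring
  have h4 : sp n I J (i, j) = sp n I J (i + 1, j) *
      √((((i:ℝ) + 1) * ((n - I - J : ℕ) : ℝ)) / (((n - i - j : ℕ) : ℝ) * I)) := by
    unfold sp
    rw [h2, Real.sqrt_mul (pr_nonneg _ _ _ _)]
  rw [h4, Real.sqrt_mul (by positivity), h3, Real.sqrt_sq (Real.exp_pos _).le, sx_succ]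
  have h5 : Real.exp (sx n I i * u + sx n J j * v) =
      Real.exp ((sx n I i + 1 / (ell n : ℝ)) * u + sx n J j * v) *
        Real.exp (-(u / ell n)) := by
    rw [← Real.exp_add]; congr 1; ring
  rw [h5]; ring

/-- perturbation of a number close to one by an exponential factor -/
lemma pert {x y e b : ℝ} (hx : |x - 1| ≤ e) (hy : |y| ≤ b) (hb : b ≤ 1) :
    |x * Real.exp y - 1| ≤ 3 * e + 2 * b := by
  have h1 : x * Real.exp y - 1 = (x - 1) * Real.exp y + (Real.exp y - 1) := by ring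
  have h2 : |Real.exp y - 1| ≤ 2 * |y| := Real.abs_exp_sub_one_le (hy.trans hb)
  have h3 : Real.exp y ≤ 3 := by
    have h4 : y ≤ 1 := (le_abs_self y).trans (hy.trans hb)
    calc Real.exp y ≤ Real.exp 1 := Real.exp_le_exp.2 h4
      _ ≤ 3 := by linarith [Real.exp_one_lt_d9]
  rw [h1]
  refine (abs_add_le _ _).trans ?_
  rw [abs_mul, abs_of_pos (Real.exp_pos y)]
  have h5 := abs_nonneg (x - 1)
  have h6 := Real.exp_pos y
  nlinarith

lemma ratio_bd {n I J K c j k s a : ℝ} (h1 : c + j + k = n) (h2 : I + J + K = n) (hI : n ≤ 5 * I)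
    (hK : n ≤ 5 * K) (hc : n ≤ 10 * c) (hk : n ≤ 10 * k) (hJ : 0 ≤ J) (hs : 1 ≤ s)
    (hsn : s ^ 2 ≤ n) (hp : |c - I| + |j - J| ≤ s * a) (ha : 0 ≤ a) :
    |k * I / ((c + 1) * K) - 1| ≤ 50 * (1 + a) / s ∧
      |c * K / ((k + 1) * I) - 1| ≤ 50 * (1 + a) / s := by
  have hn : 1 ≤ n := by nlinarith
  have hI0 : 0 < I := by linarith
  have hK0 : 0 < K := by linarith
  have hc0 : 0 < c := by linarith
  have hk0 : 0 < k := by linarith
  have hs0 : 0 < s := by linarith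
  have hp0 := abs_nonneg (c - I)
  have hq0 := abs_nonneg (j - J)
  have hD1 : n ^ 2 ≤ 50 * ((c + 1) * K) := by nlinarith
  have hD2 : n ^ 2 ≤ 50 * ((k + 1) * I) := by nlinarith
  have hN : ∀ t : ℝ, 0 ≤ t → t ≤ n → (K + I) * |c - I| + I * |j - J| + t ≤ n * s * (1 + a) := by
    intro t ht0 ht
    have e1 : (K + I) * |c - I| ≤ n * |c - I| := by
      apply mul_le_mul_of_nonneg_right _ hp0; linarith
    have e2 : I * |j - J| ≤ n * |j - J| := by
      apply mul_le_mul_of_nonneg_right _ hq0; linarith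
    have e3 : n * |c - I| + n * |j - J| ≤ n * (s * a) := by
      rw [← mul_add]; exact mul_le_mul_of_nonneg_left hp (by linarith)
    have e4 : n * 1 ≤ n * s := mul_le_mul_of_nonneg_left hs (by linarith)
    nlinarith
  have hfin : ∀ N D : ℝ, 0 < D → n ^ 2 ≤ 50 * D → |N| ≤ n * s * (1 + a) →
      |N| / D ≤ 50 * (1 + a) / s := by
    intro N D hD hD' hN'
    rw [div_le_div_iff₀ hD hs0]
    have e1 : |N| * s ≤ n * s * (1 + a) * s := mul_le_mul_of_nonneg_right hN' hs0.le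
    have e2 : n * s * (1 + a) * s ≤ n * n * (1 + a) := by
      have : n * s * (1 + a) * s = (n * (1 + a)) * s ^ 2 := by ring
      rw [this]
      have : n * n * (1 + a) = (n * (1 + a)) * n := by ring
      rw [this]
      exact mul_le_mul_of_nonneg_left hsn (by positivity)
    have e3 : n * n * (1 + a) ≤ 50 * (1 + a) * D := by
      have : n * n * (1 + a) = (1 + a) * n ^ 2 := by ring
      rw [this]
      nlinarith
    linarith
  have hkk : k = I + J + K - c - j := by linarith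
  constructor
  · have hD : 0 < (c + 1) * K := by positivity
    rw [div_sub_one hD.ne', abs_div, abs_of_pos hD]
    refine hfin _ _ hD hD1 ?_
    have e : k * I - (c + 1) * K = -((K + I) * (c - I)) - I * (j - J) - K := by rw [hkk]; ring
    rw [e]
    refine le_trans ?_ (hN K hK0.le (by linarith))
    refine (abs_sub _ _).trans ?_
    refine (add_le_add (abs_sub _ _) le_rfl).trans ?_
    rw [abs_neg, abs_mul, abs_mul, abs_of_pos (by linarith : 0 < K + I), abs_of_pos hI0,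
      abs_of_pos hK0]
  · have hD : 0 < (k + 1) * I := by positivity
    rw [div_sub_one hD.ne', abs_div, abs_of_pos hD]
    refine hfin _ _ hD hD2 ?_
    have e : c * K - (k + 1) * I = (K + I) * (c - I) + I * (j - J) - I := by rw [hkk]; ring
    rw [e]
    refine le_trans ?_ (hN I hI0.le (by linarith))
    refine (abs_sub _ _).trans ?_
    refine (add_le_add (abs_add_le _ _) le_rfl).trans ?_
    rw [abs_mul, abs_mul, abs_of_pos (by linarith : 0 < K + I), abs_of_pos hI0]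

lemma ab_eq (n I J i j : ℕ) : ab n I J (i, j) = (|(i:ℝ) - I| + |(j:ℝ) - J|) / ell n := by
  unfold ab sx
  simp only
  rw [abs_div, abs_div, abs_of_nonneg (by positivity : (0:ℝ) ≤ ell n)]
  ring

lemma ell_sq_le (n : ℕ) : (ell n : ℝ) ^ 2 ≤ n := by
  exact_mod_cast Nat.sqrt_le' n

lemma prod_bd {p q d : ℝ} (hp : 0 < p) (hq : 0 < q) (_hp1 : p ≤ 1) (hq1 : q ≤ 1) (h1 : p ≤ d)
    (h2 : q ≤ d) : (1 - p) * (1 - q) ≤ 1 ∧ 1 - (d + d) ≤ (1 - p) * (1 - q) := by
  constructor <;> nlinarith [mul_pos hp hq]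

set_option maxHeartbeats 1000000 in
/-- the inner region -/
lemma inner {n I J i j : ℕ} (hC : Cen n I J) (hs : 20 ≤ (ell n : ℝ)) {B u v : ℝ} (hB : 0 ≤ B)
    (hBs : 2 * B ≤ ell n) (hu : |u| ≤ B)
    (hab : ab n I J (i + 1, j) ≤ (ell n : ℝ) / 10) :
    i + 1 + j + 1 ≤ n ∧
    |aa n I J u v i j - 2 * aa n I J u v (i + 1) j + aa n I J u v (i + 2) j| ≤
      aa n I J u v (i + 1) j *
        ((20 + (150 + 4 * B) ^ 2) * (1 + ab n I J (i + 1, j)) ^ 2 / (ell n : ℝ) ^ 2) := by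
  obtain ⟨hI, hJ, hK⟩ := hC
  set s : ℝ := (ell n : ℝ) with hsdef
  set a : ℝ := ab n I J (i + 1, j) with hadef
  have hsn : s ^ 2 ≤ n := ell_sq_le n
  have hs0 : 0 < s := by linarith
  have hn400 : (400:ℝ) ≤ n := by nlinarith
  have ha : a = (|((i + 1 : ℕ):ℝ) - I| + |(j:ℝ) - J|) / s := ab_eq n I J (i + 1) j
  have ha0 : 0 ≤ a := by rw [ha]; positivity
  have hpr : |((i + 1 : ℕ):ℝ) - I| + |(j:ℝ) - J| = s * a := by rw [ha]; field_simp
  have hpr' : |((i + 1 : ℕ):ℝ) - I| + |(j:ℝ) - J| ≤ n / 10 := by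
    rw [hpr]; nlinarith
  have hIr : (n:ℝ) ≤ 5 * I := by exact_mod_cast hI
  have hJr : (n:ℝ) ≤ 5 * J := by exact_mod_cast hJ
  have hKr : 5 * ((I:ℝ) + J) ≤ 4 * n := by exact_mod_cast hK
  have hp1 := abs_nonneg (((i + 1 : ℕ):ℝ) - I)
  have hq1 := abs_nonneg ((j:ℝ) - J)
  have hp2 := le_abs_self (((i + 1 : ℕ):ℝ) - I)
  have hp3 := neg_abs_le (((i + 1 : ℕ):ℝ) - I)
  have hq2 := le_abs_self ((j:ℝ) - J)
  have hq3 := neg_abs_le ((j:ℝ) - J)
  have hlt : (((i + 1 : ℕ):ℝ)) + j + 1 ≤ n := by linarith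
  have hle : i + 1 + j + 1 ≤ n := by exact_mod_cast hlt
  refine ⟨hle, ?_⟩
  obtain ⟨k, hk⟩ : ∃ k, n = i + 1 + j + k := ⟨n - (i + 1 + j), by omega⟩
  have hIJ : I + J < n := by omega
  obtain ⟨K, hKe⟩ : ∃ K, n = I + J + K := ⟨n - (I + J), by omega⟩
  have hn0 : 0 < n := by omega
  have hI0 : 0 < I := by omega
  have hkr : ((i + 1 : ℕ):ℝ) + j + k = n := by rw [hk]; push_cast; ring
  have hKr' : (I:ℝ) + J + K = n := by rw [hKe]; push_cast; ring
  have hbd := ratio_bd (a := a) (s := s) hkr hKr' hIr (by linarith) (by linarith) (by linarith)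
    (by positivity) (by linarith) hsn hpr.le ha0
  have hsucc := aa_succ (I := I) (J := J) (i := i + 1) (j := j) (n := n) (by omega) hn0 hIJ u v
  have hpred := aa_pred (I := I) (J := J) (i := i) (j := j) (n := n) (by omega) hn0 hI0 u v
  have c1 : n - (i + 1) - j = k := by omega
  have c2 : n - i - j = k + 1 := by omega
  have c3 : n - I - J = K := by omega
  rw [c1, c3] at hsucc
  rw [c2, c3] at hpred
  have c4 : ((i:ℝ) + 1) = ((i + 1 : ℕ) : ℝ) := by push_cast; ring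
  rw [c4] at hpred
  set c : ℝ := ((i + 1 : ℕ) : ℝ) with hc
  have hc10 : (n:ℝ) ≤ 10 * c := by linarith
  have hk10 : (n:ℝ) ≤ 10 * k := by linarith
  have hK5 : (n:ℝ) ≤ 5 * K := by linarith
  push_cast at hpred
  set X : ℝ := (k:ℝ) * I / ((c + 1) * K) * Real.exp (2 * u / ell n) with hX
  set Y : ℝ := c * K / (((k:ℝ) + 1) * I) * Real.exp (-(2 * u) / ell n) with hY
  have hy : |2 * u / s| ≤ 2 * B / s := by
    rw [abs_div, abs_mul, abs_of_pos hs0]
    norm_num
    gcongr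
  have hy' : |-(2 * u) / s| ≤ 2 * B / s := by
    rw [neg_div, abs_neg]; exact hy
  have hb1 : 2 * B / s ≤ 1 := by rw [div_le_one hs0]; exact hBs
  have b1 := pert hbd.1 hy hb1
  have b2 := pert hbd.2 hy' hb1
  have he : 3 * (50 * (1 + a) / s) + 2 * (2 * B / s) ≤ (150 + 4 * B) * (1 + a) / s := by
    rw [← mul_div_assoc, ← mul_div_assoc, ← add_div]
    apply div_le_div_of_nonneg_right _ hs0.le
    have e0 : (150 + 4 * B) * (1 + a) = 3 * (50 * (1 + a)) + 2 * (2 * B) + 4 * (B * a) := by ring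
    have e1 := mul_nonneg hB ha0
    linarith
  have hX0 : 0 ≤ X := by positivity
  have hY0 : 0 ≤ Y := by positivity
  have hkp : 0 < (k:ℝ) := by linarith
  have hKp : 0 < (K:ℝ) := by linarith
  have hcp : 0 < c := by linarith
  have hIp : (0:ℝ) < I := by linarith
  have hXY : X * Y = (k / (k + 1)) * (c / (c + 1)) := by
    have e1 : Real.exp (2 * u / ell n) * Real.exp (-(2 * u) / ell n) = 1 := by
      rw [← Real.exp_add, neg_div, add_neg_cancel, Real.exp_zero]
    calc X * Y = ((k:ℝ) * I / ((c + 1) * K)) * (c * K / (((k:ℝ) + 1) * I)) *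
          (Real.exp (2 * u / ell n) * Real.exp (-(2 * u) / ell n)) := by rw [hX, hY]; ring
      _ = _ := by rw [e1]; field_simp
  have g1 : (k:ℝ) / (k + 1) = 1 - 1 / (k + 1) := by field_simp; ring
  have g2 : c / (c + 1) = 1 - 1 / (c + 1) := by field_simp; ring
  have g3 : 1 / ((k:ℝ) + 1) ≤ 10 / s ^ 2 := by
    rw [div_le_div_iff₀ (by positivity) (by positivity)]; linarith
  have g4 : 1 / (c + 1) ≤ 10 / s ^ 2 := by
    rw [div_le_div_iff₀ (by positivity) (by positivity)]; linarith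
  have g5 : 0 < 1 / ((k:ℝ) + 1) := by positivity
  have g6 : 0 < 1 / (c + 1) := by positivity
  have g7 : 1 / ((k:ℝ) + 1) ≤ 1 := by rw [div_le_one (by positivity)]; linarith
  have g8 : 1 / (c + 1) ≤ 1 := by rw [div_le_one (by positivity)]; linarith
  have hXY1 : X * Y ≤ 1 := by rw [hXY, g1, g2]; exact (prod_bd g5 g6 g7 g8 g3 g4).1
  have hXY2 : 1 - 20 / s ^ 2 ≤ X * Y := by
    rw [hXY, g1, g2]
    have : 20 / s ^ 2 = 10 / s ^ 2 + 10 / s ^ 2 := by ring
    rw [this]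
    exact (prod_bd g5 g6 g7 g8 g3 g4).2
  have main := sqrt_sum_le hX0 hY0 (b1.trans he) (b2.trans he) hXY1 hXY2
  have hA := aa_nonneg n I J u v (i + 1) j
  rw [show i + 2 = i + 1 + 1 from rfl, hsucc, hpred]
  have e2 : aa n I J u v (i + 1) j * √Y - 2 * aa n I J u v (i + 1) j +
      aa n I J u v (i + 1) j * √X = aa n I J u v (i + 1) j * (√X + √Y - 2) := by ring
  rw [e2, abs_mul, abs_of_nonneg hA]
  apply mul_le_mul_of_nonneg_left _ hA
  refine main.trans ?_
  have e3 : ((150 + 4 * B) * (1 + a) / s) ^ 2 = (150 + 4 * B) ^ 2 * (1 + a) ^ 2 / s ^ 2 := by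
    rw [div_pow, mul_pow]
  rw [e3, ← add_div]
  apply div_le_div_of_nonneg_right _ (by positivity)
  have e4 : (20 + (150 + 4 * B) ^ 2) * (1 + a) ^ 2 =
      20 + (150 + 4 * B) ^ 2 * (1 + a) ^ 2 + 20 * (2 * a + a ^ 2) := by ring
  have e5 : 0 ≤ 20 * (2 * a + a ^ 2) := by positivity
  linarith

/-- the outer part -/
noncomputable def oo (n I J : ℕ) (B : ℝ) (i j : ℕ) : ℝ :=
  if i + j ≤ n ∧ (ell n : ℝ) / 10 - 1 ≤ ab n I J (i, j) then
    sp n I J (i, j) * Real.exp (B * ab n I J (i, j)) else 0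

/-- the inner majorant -/
noncomputable def gg (n I J : ℕ) (B : ℝ) (i j : ℕ) : ℝ :=
  if i + j ≤ n then sp n I J (i, j) * Real.exp ((B + 1) * ab n I J (i, j)) else 0

lemma oo_nonneg (n I J : ℕ) (B : ℝ) (i j : ℕ) : 0 ≤ oo n I J B i j := by
  unfold oo
  split_ifs
  · exact mul_nonneg (sp_nonneg _ _ _ _) (Real.exp_pos _).le
  · exact le_rfl

lemma gg_nonneg (n I J : ℕ) (B : ℝ) (i j : ℕ) : 0 ≤ gg n I J B i j := by
  unfold gg
  split_ifs
  · exact mul_nonneg (sp_nonneg _ _ _ _) (Real.exp_pos _).le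
  · exact le_rfl

lemma lin_le {B u v x y : ℝ} (hu : |u| ≤ B) (hv : |v| ≤ B) :
    x * u + y * v ≤ B * (|x| + |y|) := by
  have h1 : x * u ≤ |x| * B :=
    (le_abs_self _).trans (by rw [abs_mul]; exact mul_le_mul_of_nonneg_left hu (abs_nonneg _))
  have h2 : y * v ≤ |y| * B :=
    (le_abs_self _).trans (by rw [abs_mul]; exact mul_le_mul_of_nonneg_left hv (abs_nonneg _))
  nlinarith

lemma aa_le_oo {n I J i j : ℕ} {B u v : ℝ} (hu : |u| ≤ B) (hv : |v| ≤ B)
    (h : (ell n : ℝ) / 10 - 1 ≤ ab n I J (i, j)) : aa n I J u v i j ≤ oo n I J B i j := by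
  unfold aa oo
  split_ifs with h1 h2 h2
  · apply mul_le_mul_of_nonneg_left _ (sp_nonneg _ _ _ _)
    exact Real.exp_le_exp.2 (lin_le hu hv)
  · exact absurd ⟨h1, h⟩ h2
  · exact absurd h2.1 h1
  · exact le_rfl

lemma aa_le_gg {n I J i j : ℕ} {B u v : ℝ} (hu : |u| ≤ B) (hv : |v| ≤ B) :
    aa n I J u v i j * (1 + ab n I J (i, j)) ^ 2 ≤ 2 * gg n I J B i j := by
  unfold aa gg
  split_ifs with h1
  · have h0 : 0 ≤ ab n I J (i, j) := by unfold ab; positivity
    have h2 := one_add_sq_le _ h0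
    have h3 : Real.exp (sx n I i * u + sx n J j * v) ≤ Real.exp (B * ab n I J (i, j)) :=
      Real.exp_le_exp.2 (lin_le hu hv)
    have h4 : Real.exp ((B + 1) * ab n I J (i, j)) =
        Real.exp (B * ab n I J (i, j)) * Real.exp (ab n I J (i, j)) := by
      rw [← Real.exp_add]; congr 1; ring
    rw [h4]
    have h5 := sp_nonneg n I J (i, j)
    calc sp n I J (i, j) * Real.exp (sx n I i * u + sx n J j * v) * (1 + ab n I J (i, j)) ^ 2
        ≤ sp n I J (i, j) * Real.exp (B * ab n I J (i, j)) * (2 * Real.exp (ab n I J (i, j))) := by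
          apply mul_le_mul _ h2 (by positivity) (by positivity)
          exact mul_le_mul_of_nonneg_left h3 h5
      _ = _ := by ring
  · simp

lemma ab_step (n I J i j : ℕ) (hs : 0 < ell n) :
    |ab n I J (i + 1, j) - ab n I J (i, j)| ≤ 1 / ell n := by
  rw [ab_eq, ab_eq, ← sub_div, abs_div, abs_of_pos (by exact_mod_cast hs : (0:ℝ) < ell n)]
  apply div_le_div_of_nonneg_right _ (by positivity)
  have e : |((i + 1 : ℕ):ℝ) - I| + |(j:ℝ) - J| - (|(i:ℝ) - I| + |(j:ℝ) - J|) =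
      |((i + 1 : ℕ):ℝ) - I| - |(i:ℝ) - I| := by ring
  rw [e]
  refine (abs_abs_sub_abs_le _ _).trans ?_
  have e2 : ((i + 1 : ℕ):ℝ) - I - ((i:ℝ) - I) = 1 := by push_cast; ring
  rw [e2]; simp

/-- the bound of the second differences -/
lemma D_le {n I J : ℕ} (hC : Cen n I J) (hs : 20 ≤ (ell n : ℝ)) {B u v : ℝ} (hB : 0 ≤ B)
    (hBs : 2 * B ≤ ell n) (hu : |u| ≤ B) (hv : |v| ≤ B) (i j : ℕ) :
    |aa n I J u v i j - 2 * aa n I J u v (i + 1) j + aa n I J u v (i + 2) j| ≤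
      2 * (20 + (150 + 4 * B) ^ 2) / (ell n : ℝ) ^ 2 * gg n I J B (i + 1) j +
        (oo n I J B i j + 2 * oo n I J B (i + 1) j + oo n I J B (i + 2) j) := by
  have o0 := oo_nonneg n I J B i j
  have o1 := oo_nonneg n I J B (i + 1) j
  have o2 := oo_nonneg n I J B (i + 2) j
  have a0 := aa_nonneg n I J u v i j
  have a1 := aa_nonneg n I J u v (i + 1) j
  have a2 := aa_nonneg n I J u v (i + 2) j
  have g0 := gg_nonneg n I J B (i + 1) j
  have hs0 : (0:ℝ) < ell n := by linarith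
  rcases le_or_gt (ab n I J (i + 1, j)) ((ell n : ℝ) / 10) with h | h
  · have h1 := (inner (v := v) hC hs hB hBs hu h).2
    refine h1.trans ?_
    have h2 := aa_le_gg (n := n) (I := I) (J := J) (i := i + 1) (j := j) hu hv
    have h3 : aa n I J u v (i + 1) j *
        ((20 + (150 + 4 * B) ^ 2) * (1 + ab n I J (i + 1, j)) ^ 2 / (ell n : ℝ) ^ 2) =
        (20 + (150 + 4 * B) ^ 2) / (ell n : ℝ) ^ 2 *
          (aa n I J u v (i + 1) j * (1 + ab n I J (i + 1, j)) ^ 2) := by ring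
    rw [h3]
    have h4 : (20 + (150 + 4 * B) ^ 2) / (ell n : ℝ) ^ 2 *
          (aa n I J u v (i + 1) j * (1 + ab n I J (i + 1, j)) ^ 2) ≤
        (20 + (150 + 4 * B) ^ 2) / (ell n : ℝ) ^ 2 * (2 * gg n I J B (i + 1) j) :=
      mul_le_mul_of_nonneg_left h2 (by positivity)
    refine h4.trans ?_
    have h5 : 2 * (20 + (150 + 4 * B) ^ 2) / (ell n : ℝ) ^ 2 * gg n I J B (i + 1) j =
      (20 + (150 + 4 * B) ^ 2) / (ell n : ℝ) ^ 2 * (2 * gg n I J B (i + 1) j) := by ring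
    rw [h5]
    linarith
  · have hell : 0 < ell n := by exact_mod_cast hs0
    have k1 := abs_le.1 (ab_step n I J i j hell)
    have k2 := abs_le.1 (ab_step n I J (i + 1) j hell)
    have k3 : 1 / (ell n : ℝ) ≤ 1 := by rw [div_le_one hs0]; linarith
    have b0 := aa_le_oo (n := n) (I := I) (J := J) (i := i) (j := j) hu hv (by linarith [k1.2])
    have b1 := aa_le_oo (n := n) (I := I) (J := J) (i := i + 1) (j := j) hu hv (by linarith)
    have b2 := aa_le_oo (n := n) (I := I) (J := J) (i := i + 2) (j := j) hu hv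
      (by have := k2.1; linarith)
    have h5 : 0 ≤ 2 * (20 + (150 + 4 * B) ^ 2) / (ell n : ℝ) ^ 2 * gg n I J B (i + 1) j := by
      positivity
    rw [abs_le]
    constructor <;> linarith

lemma sum_tri_eq (n : ℕ) (F : ℕ × ℕ → ℝ) :
    ∑ m ∈ tri n, F m = ∑ j ∈ Finset.range (n + 1), ∑ i ∈ Finset.range (n + 1),
      if i + j ≤ n then F (i, j) else 0 := by
  unfold tri
  rw [Finset.sum_filter, Finset.sum_product_right]

lemma sum_shift {n : ℕ} (f : ℕ → ℝ) (h0 : ∀ i, 0 ≤ f i) (h : ∀ i, n < i → f i = 0) :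
    ∑ i ∈ Finset.range (n + 1), f (i + 1) ≤ ∑ i ∈ Finset.range (n + 1), f i := by
  have h1 := Finset.sum_range_succ f (n + 1)
  have h2 := Finset.sum_range_succ' f (n + 1)
  have h3 := h (n + 1) (by omega)
  have h4 := h0 0
  linarith

/-- the alternating sum is bounded by the two majorants -/
lemma loc_le {n I J : ℕ} (hC : Cen n I J) (hs : 20 ≤ (ell n : ℝ)) {B u v : ℝ} (hB : 0 ≤ B)
    (hBs : 2 * B ≤ ell n) (hu : |u| ≤ B) (hv : |v| ≤ B) :
    4 * |loc n I J (tri n) sg u v| ≤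
      8 * (∑ j ∈ Finset.range (n + 1), ∑ i ∈ Finset.range (n + 1), oo n I J B i j) +
      2 * (20 + (150 + 4 * B) ^ 2) / (ell n : ℝ) ^ 2 *
        ∑ j ∈ Finset.range (n + 1), ∑ i ∈ Finset.range (n + 1), gg n I J B i j := by
  have hs0 : (0:ℝ) < ell n := by linarith
  have hsn := ell_sq_le n
  have hn400 : (400:ℝ) ≤ n := by nlinarith
  have hn1 : 400 ≤ n := by exact_mod_cast hn400
  have hIr : (n:ℝ) ≤ 5 * I := by exact_mod_cast hC.hI
  have e1 : loc n I J (tri n) sg u v = -∑ j ∈ Finset.range (n + 1), (-1:ℝ) ^ j *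
      ∑ i ∈ Finset.range (n + 1), (-1:ℝ) ^ i * aa n I J u v i j := by
    unfold loc
    rw [sum_tri_eq, ← Finset.sum_neg_distrib]
    refine Finset.sum_congr rfl fun j _ => ?_
    rw [Finset.mul_sum, ← Finset.sum_neg_distrib]
    refine Finset.sum_congr rfl fun i _ => ?_
    unfold aa sg
    split_ifs
    · simp only; rw [pow_add]; ring
    · simp
  have e2 : |loc n I J (tri n) sg u v| ≤ ∑ j ∈ Finset.range (n + 1),
      |∑ i ∈ Finset.range (n + 1), (-1:ℝ) ^ i * aa n I J u v i j| := by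
    rw [e1, abs_neg]
    refine (Finset.abs_sum_le_sum_abs _ _).trans (Finset.sum_le_sum fun j _ => ?_)
    rw [abs_mul, abs_pow]; simp
  have e3 : ∀ j, 4 * |∑ i ∈ Finset.range (n + 1), (-1:ℝ) ^ i * aa n I J u v i j| ≤
      8 * (∑ i ∈ Finset.range (n + 1), oo n I J B i j) +
      2 * (20 + (150 + 4 * B) ^ 2) / (ell n : ℝ) ^ 2 *
        ∑ i ∈ Finset.range (n + 1), gg n I J B i j := by
    intro j
    have z : ∀ i, n < i → aa n I J u v i j = 0 := by
      intro i hi; unfold aa; rw [if_neg (by omega)]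
    have zo : ∀ i, n < i → oo n I J B i j = 0 := by
      intro i hi; unfold oo; rw [if_neg (by omega)]
    have zg : ∀ i, n < i → gg n I J B i j = 0 := by
      intro i hi; unfold gg; rw [if_neg (by omega)]
    have h1 := four_alt_le (fun i => aa n I J u v i j) (fun i => aa_nonneg n I J u v i j) n
      (z _ (by omega)) (z _ (by omega))
    have hab : ∀ i : ℕ, i ≤ 1 → (ell n : ℝ) / 10 - 1 ≤ ab n I J (i, j) := by
      intro i hi
      have hi' : (i:ℝ) ≤ 1 := by exact_mod_cast hi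
      rw [ab_eq, le_div_iff₀ hs0]
      have h2 := neg_abs_le ((i:ℝ) - I)
      have h3 := abs_nonneg ((j:ℝ) - J)
      nlinarith
    have h2 : aa n I J u v 0 j ≤ ∑ i ∈ Finset.range (n + 1), oo n I J B i j :=
      (aa_le_oo hu hv (hab 0 (by omega))).trans
        (Finset.single_le_sum (f := fun i => oo n I J B i j)
          (fun i _ => oo_nonneg n I J B i j) (Finset.mem_range.2 (by omega)))
    have h3 : aa n I J u v 1 j ≤ ∑ i ∈ Finset.range (n + 1), oo n I J B i j :=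
      (aa_le_oo hu hv (hab 1 (by omega))).trans
        (Finset.single_le_sum (f := fun i => oo n I J B i j)
          (fun i _ => oo_nonneg n I J B i j) (Finset.mem_range.2 (by omega)))
    have h4 : ∑ i ∈ Finset.range (n + 1),
        |aa n I J u v i j - 2 * aa n I J u v (i + 1) j + aa n I J u v (i + 2) j| ≤
        2 * (20 + (150 + 4 * B) ^ 2) / (ell n : ℝ) ^ 2 *
          (∑ i ∈ Finset.range (n + 1), gg n I J B (i + 1) j) +
        ((∑ i ∈ Finset.range (n + 1), oo n I J B i j) +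
          2 * (∑ i ∈ Finset.range (n + 1), oo n I J B (i + 1) j) +
          ∑ i ∈ Finset.range (n + 1), oo n I J B (i + 2) j) := by
      refine (Finset.sum_le_sum fun i _ => D_le hC hs hB hBs hu hv i j).trans (le_of_eq ?_)
      rw [Finset.sum_add_distrib, Finset.sum_add_distrib, Finset.sum_add_distrib, Finset.mul_sum,
        Finset.mul_sum]
    have h5 := sum_shift (n := n) (fun i => oo n I J B i j) (fun i => oo_nonneg n I J B i j) zo
    have h6 := sum_shift (n := n) (fun i => oo n I J B (i + 1) j)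
      (fun i => oo_nonneg n I J B (i + 1) j) (fun i hi => zo _ (by omega))
    have h7 := sum_shift (n := n) (fun i => gg n I J B i j) (fun i => gg_nonneg n I J B i j) zg
    have h8 := mul_le_mul_of_nonneg_left h7
      (by positivity : 0 ≤ 2 * (20 + (150 + 4 * B) ^ 2) / (ell n : ℝ) ^ 2)
    have h6' : ∑ i ∈ Finset.range (n + 1), oo n I J B (i + 2) j ≤
      ∑ i ∈ Finset.range (n + 1), oo n I J B (i + 1) j := h6
    linarith
  have e4 := mul_le_mul_of_nonneg_left e2 (by norm_num : (0:ℝ) ≤ 4)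
  refine e4.trans ?_
  rw [Finset.mul_sum]
  refine (Finset.sum_le_sum fun j _ => e3 j).trans (le_of_eq ?_)
  rw [Finset.sum_add_distrib, ← Finset.mul_sum, ← Finset.mul_sum]

/-- a geometric sum -/
lemma geo_le {ρ : ℝ} (h0 : 0 ≤ ρ) (h1 : ρ < 1) (M : ℕ) :
    ∑ d ∈ Finset.range M, ρ ^ d ≤ 1 / (1 - ρ) := by
  rw [geom_sum_eq h1.ne M, le_div_iff₀ (by linarith)]
  have h2 : ρ - 1 ≠ 0 := by linarith
  have h3 : (ρ ^ M - 1) / (ρ - 1) * (1 - ρ) = 1 - ρ ^ M := by field_simp; ring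
  rw [h3]
  have := pow_nonneg h0 M
  linarith

lemma exp_sum_le {s : ℝ} (hs : 1 ≤ s) (N I : ℕ) :
    ∑ i ∈ Finset.range N, Real.exp (-2 * (|(i:ℝ) - I| / s)) ≤ 3 * s := by
  have hs0 : 0 < s := by linarith
  set ρ : ℝ := Real.exp (-(2 / s)) with hρ
  have h0 : 0 ≤ ρ := (Real.exp_pos _).le
  have hx : 0 < 2 / s := by positivity
  have h1 : ρ < 1 := by rw [hρ, Real.exp_lt_one_iff]; linarith
  have h2 : 1 / (1 - ρ) ≤ 3 / 2 * s := by
    have h3 : ρ * (1 + 2 / s) ≤ 1 := by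
      have h4 : 1 + 2 / s ≤ Real.exp (2 / s) := by linarith [Real.add_one_le_exp (2 / s)]
      calc ρ * (1 + 2 / s) ≤ ρ * Real.exp (2 / s) := mul_le_mul_of_nonneg_left h4 h0
        _ = 1 := by rw [hρ, ← Real.exp_add]; simp
    rw [div_le_iff₀ (by linarith)]
    have h5 : ρ * (s + 2) ≤ s := by
      have : ρ * (s + 2) = ρ * (1 + 2 / s) * s := by field_simp
      rw [this]; nlinarith
    nlinarith
  have hnn : ∀ i : ℕ, 0 ≤ Real.exp (-2 * (|(i:ℝ) - I| / s)) := fun i => (Real.exp_pos _).le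
  have h6 : ∑ i ∈ Finset.range N, Real.exp (-2 * (|(i:ℝ) - I| / s)) ≤
      ∑ i ∈ Finset.range (I + N), Real.exp (-2 * (|(i:ℝ) - I| / s)) :=
    Finset.sum_le_sum_of_subset_of_nonneg (Finset.range_mono (by omega)) fun i _ _ => hnn i
  rw [Finset.sum_range_add] at h6
  have h7 : ∑ i ∈ Finset.range I, Real.exp (-2 * (|(i:ℝ) - I| / s)) ≤ 3 / 2 * s := by
    rw [← Finset.sum_range_reflect]
    refine le_trans (Finset.sum_le_sum (g := fun d => ρ ^ d) fun i hi => ?_)
      ((geo_le h0 h1 I).trans h2)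
    have hi' := Finset.mem_range.1 hi
    have e1 : ((I - 1 - i : ℕ) : ℝ) - I = -((i:ℝ) + 1) := by
      have : (I - 1 - i : ℕ) + (i + 1) = I := by omega
      have h8 : ((I - 1 - i : ℕ) : ℝ) + ((i:ℝ) + 1) = I := by exact_mod_cast this
      linarith
    rw [e1, abs_neg, abs_of_nonneg (by positivity), hρ, ← Real.exp_nat_mul]
    apply Real.exp_le_exp.2
    have : -2 * (((i:ℝ) + 1) / s) = i * -(2 / s) - 2 / s := by ring
    rw [this]; linarith
  have h9 : ∑ i ∈ Finset.range N, Real.exp (-2 * (|((I + i : ℕ):ℝ) - I| / s)) ≤ 3 / 2 * s := by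
    refine le_trans (Finset.sum_le_sum (g := fun d => ρ ^ d) fun i hi => ?_)
      ((geo_le h0 h1 N).trans h2)
    have e1 : ((I + i : ℕ) : ℝ) - I = i := by push_cast; ring
    rw [e1, abs_of_nonneg (by positivity), hρ, ← Real.exp_nat_mul]
    apply Real.exp_le_exp.2
    have : -2 * ((i:ℝ) / s) = i * -(2 / s) := by ring
    rw [this]
  linarith

/-- the inner majorant -/
lemma sumG_le (ha : S_ABS) {n I J : ℕ} (hC : Cen n I J) {B : ℝ} (hB : 0 ≤ B)
    (hBs : 2 * B + 4 ≤ ell n) :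
    ∑ j ∈ Finset.range (n + 1), ∑ i ∈ Finset.range (n + 1), gg n I J B i j ≤
      6 * Real.exp (4 * (2 * B + 4) ^ 2) * ell n := by
  have hs0 : (0:ℝ) < ell n := by linarith
  have hs1 : (1:ℝ) ≤ ell n := by linarith
  have hsn := ell_sq_le n
  have hn0 : 0 < n := by
    rcases Nat.eq_zero_or_pos n with h | h
    · exfalso
      have h0 : ell n = 0 := by rw [h]; exact Nat.sqrt_zero
      have h1 : 1 ≤ ell n := by exact_mod_cast hs1
      omega
    · exact h
  have e1 : ∑ j ∈ Finset.range (n + 1), ∑ i ∈ Finset.range (n + 1), gg n I J B i j =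
      ∑ m ∈ tri n, (sp n I J m * Real.exp ((B + 2) * ab n I J m)) *
        Real.exp (-ab n I J m) := by
    rw [sum_tri_eq]
    refine Finset.sum_congr rfl fun j _ => Finset.sum_congr rfl fun i _ => ?_
    unfold gg
    split_ifs
    · rw [mul_assoc, ← Real.exp_add]; congr 2; ring
    · rfl
  rw [e1]
  refine (Real.sum_mul_le_sqrt_mul_sqrt _ _ _).trans ?_
  have e2 : ∑ m ∈ tri n, (sp n I J m * Real.exp ((B + 2) * ab n I J m)) ^ 2 ≤
      (2 * Real.exp (4 * (2 * B + 4) ^ 2)) ^ 2 := by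
    have h1 := ha n I J hn0 (by have := hC.hK; omega) (2 * B + 4) (by linarith) hBs
    have h2 : (2 * Real.exp (4 * (2 * B + 4) ^ 2)) ^ 2 = 4 * Real.exp (8 * (2 * B + 4) ^ 2) := by
      rw [mul_pow, ← Real.exp_nat_mul]; norm_num; ring
    rw [h2]
    refine le_trans (le_of_eq (Finset.sum_congr rfl fun m _ => ?_)) h1
    rw [mul_pow, sp_sq, ← Real.exp_nat_mul]; congr 2; push_cast; ring
  have e3 : ∑ m ∈ tri n, Real.exp (-ab n I J m) ^ 2 ≤ (3 * (ell n : ℝ)) ^ 2 := by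
    rw [sum_tri_eq]
    have h1 : ∀ j ∈ Finset.range (n + 1), (∑ i ∈ Finset.range (n + 1),
        if i + j ≤ n then Real.exp (-ab n I J (i, j)) ^ 2 else 0) ≤
        Real.exp (-2 * (|(j:ℝ) - J| / ell n)) * (3 * ell n) := by
      intro j _
      refine le_trans ?_ (mul_le_mul_of_nonneg_left (exp_sum_le hs1 (n + 1) I)
        (Real.exp_pos _).le)
      rw [Finset.mul_sum]
      refine Finset.sum_le_sum fun i _ => ?_
      split_ifs
      · rw [← Real.exp_nat_mul, ← Real.exp_add, ab_eq]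
        apply Real.exp_le_exp.2
        apply le_of_eq
        push_cast; ring
      · positivity
    refine (Finset.sum_le_sum h1).trans ?_
    rw [← Finset.sum_mul, sq]
    exact mul_le_mul_of_nonneg_right (exp_sum_le hs1 (n + 1) J) (by positivity)
  have e4 := Real.sqrt_le_sqrt e2
  have e5 := Real.sqrt_le_sqrt e3
  rw [Real.sqrt_sq (by positivity)] at e4 e5
  calc _ ≤ (2 * Real.exp (4 * (2 * B + 4) ^ 2)) * (3 * (ell n : ℝ)) :=
        mul_le_mul e4 e5 (Real.sqrt_nonneg _) (by positivity)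
    _ = _ := by ring

/-- the outer part -/
lemma sumO_le (ha : S_ABS) {n I J : ℕ} (hC : Cen n I J) {B : ℝ} (hB : 0 ≤ B)
    (hBs : 2 * B + 4 ≤ ell n) :
    ∑ j ∈ Finset.range (n + 1), ∑ i ∈ Finset.range (n + 1), oo n I J B i j ≤
      768000 * Real.exp (4 * (2 * B + 1) ^ 2) / ell n := by
  have hs0 : (0:ℝ) < ell n := by linarith
  have hs1 : (1:ℝ) ≤ ell n := by linarith
  have hsn := ell_sq_le n
  have hn0 : 0 < n := by
    rcases Nat.eq_zero_or_pos n with h | h
    · exfalso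
      have h0 : ell n = 0 := by rw [h]; exact Nat.sqrt_zero
      have h1 : 1 ≤ ell n := by exact_mod_cast hs1
      omega
    · exact h
  set s : ℝ := (ell n : ℝ) with hsdef
  set S := (tri n).filter fun m => s / 10 - 1 ≤ ab n I J m with hS
  have e1 : ∑ j ∈ Finset.range (n + 1), ∑ i ∈ Finset.range (n + 1), oo n I J B i j =
      ∑ m ∈ S, 1 * (sp n I J m * Real.exp (B * ab n I J m)) := by
    rw [hS, Finset.sum_filter, sum_tri_eq]
    refine Finset.sum_congr rfl fun j _ => Finset.sum_congr rfl fun i _ => ?_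
    unfold oo
    by_cases h1 : i + j ≤ n
    · by_cases h2 : s / 10 - 1 ≤ ab n I J (i, j)
      · rw [if_pos ⟨h1, h2⟩, if_pos h1, if_pos h2, one_mul]
      · rw [if_neg (fun h => h2 h.2), if_pos h1, if_neg h2]
    · rw [if_neg (fun h => h1 h.1), if_neg h1]
  rw [e1]
  refine (Real.sum_mul_le_sqrt_mul_sqrt _ _ _).trans ?_
  have hns : (n:ℝ) + 1 ≤ 4 * s ^ 2 := by
    have h1 : n < (ell n + 1) ^ 2 := Nat.lt_succ_sqrt' n
    have h2 : n + 1 ≤ (ell n + 1) ^ 2 := h1
    have h3 : (n:ℝ) + 1 ≤ (s + 1) ^ 2 := by rw [hsdef]; exact_mod_cast h2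
    nlinarith
  have e2 : ∑ m ∈ S, (1:ℝ) ^ 2 ≤ (4 * s ^ 2) ^ 2 := by
    simp only [one_pow, Finset.sum_const, nsmul_eq_mul, mul_one]
    have h1 : S.card ≤ (n + 1) * (n + 1) := by
      refine (Finset.card_filter_le _ _).trans ((Finset.card_filter_le _ _).trans ?_)
      rw [Finset.card_product, Finset.card_range]
    have h2 : (S.card : ℝ) ≤ ((n:ℝ) + 1) * ((n:ℝ) + 1) := by exact_mod_cast h1
    refine h2.trans ?_
    rw [sq (4 * s ^ 2)]
    exact mul_le_mul hns hns (by positivity) (by positivity)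
  have e3 : ∑ m ∈ S, (sp n I J m * Real.exp (B * ab n I J m)) ^ 2 ≤
      (2 * Real.exp (4 * (2 * B + 1) ^ 2) * Real.exp ((1 - s / 10) / 2)) ^ 2 := by
    have h1 := ha n I J hn0 (by have := hC.hK; omega) (2 * B + 1) (by linarith) (by linarith)
    have h2 : (2 * Real.exp (4 * (2 * B + 1) ^ 2) * Real.exp ((1 - s / 10) / 2)) ^ 2 =
        4 * Real.exp (8 * (2 * B + 1) ^ 2) * Real.exp (1 - s / 10) := by
      rw [mul_pow, mul_pow, ← Real.exp_nat_mul, ← Real.exp_nat_mul]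
      have k1 : ((2:ℕ):ℝ) * (4 * (2 * B + 1) ^ 2) = 8 * (2 * B + 1) ^ 2 := by push_cast; ring
      have k2 : ((2:ℕ):ℝ) * ((1 - s / 10) / 2) = 1 - s / 10 := by push_cast; ring
      rw [k1, k2]; norm_num
    rw [h2]
    have h3 : ∑ m ∈ S, (sp n I J m * Real.exp (B * ab n I J m)) ^ 2 ≤
        (∑ m ∈ tri n, pr n I J m * Real.exp ((2 * B + 1) * ab n I J m)) *
          Real.exp (1 - s / 10) := by
      rw [Finset.sum_mul]
      have h4 : ∑ m ∈ S, (sp n I J m * Real.exp (B * ab n I J m)) ^ 2 ≤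
          ∑ m ∈ S, pr n I J m * Real.exp ((2 * B + 1) * ab n I J m) * Real.exp (1 - s / 10) := by
        refine Finset.sum_le_sum fun m hm => ?_
        have hm' : s / 10 - 1 ≤ ab n I J m := (Finset.mem_filter.1 hm).2
        rw [mul_pow, sp_sq, ← Real.exp_nat_mul, mul_assoc, ← Real.exp_add]
        apply mul_le_mul_of_nonneg_left _ (pr_nonneg _ _ _ _)
        apply Real.exp_le_exp.2
        push_cast
        linarith
      refine h4.trans (Finset.sum_le_sum_of_subset_of_nonneg (Finset.filter_subset _ _) ?_)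
      intro m _ _
      have := pr_nonneg n I J m
      positivity
    exact h3.trans (mul_le_mul_of_nonneg_right h1 (Real.exp_pos _).le)
  have e4 := Real.sqrt_le_sqrt e2
  have e5 := Real.sqrt_le_sqrt e3
  rw [Real.sqrt_sq (by positivity)] at e4 e5
  have e6 : Real.exp ((1 - s / 10) / 2) ≤ 96000 / s ^ 3 := by
    have h1 : Real.exp ((1 - s / 10) / 2) = Real.exp (1 / 2) / Real.exp (s / 20) := by
      rw [← Real.exp_sub]; congr 1; ring
    have h2 : Real.exp (1 / 2) ≤ 2 := by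
      have h3 : Real.exp (1 / 2) ^ 2 = Real.exp 1 := by
        rw [← Real.exp_nat_mul]; congr 1; norm_num
      have h4 := Real.exp_one_lt_d9
      have h5 := Real.exp_pos (1 / 2)
      nlinarith
    have h3 : (s / 20) ^ 3 / 6 ≤ Real.exp (s / 20) := by
      have := Real.pow_div_factorial_le_exp (s / 20) (by positivity) 3
      norm_num [Nat.factorial] at this ⊢
      exact this
    have h4 : 0 < (s / 20) ^ 3 / 6 := by positivity
    rw [h1]
    calc Real.exp (1 / 2) / Real.exp (s / 20) ≤ 2 / ((s / 20) ^ 3 / 6) :=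
          div_le_div₀ (by norm_num) h2 h4 h3
      _ = 96000 / s ^ 3 := by field_simp; norm_num
  calc _ ≤ (4 * s ^ 2) * (2 * Real.exp (4 * (2 * B + 1) ^ 2) * Real.exp ((1 - s / 10) / 2)) :=
        mul_le_mul e4 e5 (Real.sqrt_nonneg _) (by positivity)
    _ ≤ (4 * s ^ 2) * (2 * Real.exp (4 * (2 * B + 1) ^ 2) * (96000 / s ^ 3)) := by
        gcongr
    _ = _ := by field_simp; norm_num

/-- **KS-ALT** -/
theorem alt_all (ha : S_ABS) (_ht : S_TAIL) : S_ALT := by
  intro B ε hB hε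
  set C₁ : ℝ := 20 + (150 + 4 * B) ^ 2 with hC₁
  set C₃ : ℝ := 768000 * Real.exp (4 * (2 * B + 1) ^ 2) with hC₃
  set C₄ : ℝ := 6 * Real.exp (4 * (2 * B + 4) ^ 2) with hC₄
  have p1 : 0 ≤ C₁ := by positivity
  have p3 : 0 ≤ C₃ := by positivity
  have p4 : 0 ≤ C₄ := by positivity
  obtain ⟨M, hM⟩ := exists_nat_ge (20 + (2 * B + 4) + (8 * C₃ + 2 * C₁ * C₄) / ε)
  refine ⟨M ^ 2, fun n hn I J hC u v hu hv => ?_⟩
  have hMs : M ≤ ell n := Nat.le_sqrt'.2 hn
  have hs : (M:ℝ) ≤ (ell n : ℝ) := by exact_mod_cast hMs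
  have q1 : 0 ≤ (8 * C₃ + 2 * C₁ * C₄) / ε := by positivity
  have hs20 : (20:ℝ) ≤ ell n := by linarith
  have hsB : 2 * B + 4 ≤ ell n := by linarith
  have hs0 : (0:ℝ) < ell n := by linarith
  have hsε : (8 * C₃ + 2 * C₁ * C₄) / ε ≤ ell n := by linarith
  have h1 := loc_le hC hs20 hB (by linarith) hu hv
  have h2 := sumG_le ha hC hB hsB
  have h3 := sumO_le ha hC hB hsB
  have h4 := mul_le_mul_of_nonneg_left h2 (by positivity :
    0 ≤ 2 * (20 + (150 + 4 * B) ^ 2) / (ell n : ℝ) ^ 2)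
  have h5 : 4 * |loc n I J (tri n) sg u v| ≤ (8 * C₃ + 2 * C₁ * C₄) / ell n := by
    refine h1.trans ?_
    have h6 : 2 * (20 + (150 + 4 * B) ^ 2) / (ell n : ℝ) ^ 2 *
        (6 * Real.exp (4 * (2 * B + 4) ^ 2) * ell n) = 2 * C₁ * C₄ / ell n := by
      rw [hC₁, hC₄]; field_simp
    rw [h6] at h4
    rw [add_div]
    have h7 : 8 * C₃ / ell n = 8 * (768000 * Real.exp (4 * (2 * B + 1) ^ 2) / ell n) := by
      rw [hC₃]; ring
    rw [h7]
    linarith
  have h8 : (8 * C₃ + 2 * C₁ * C₄) / ell n ≤ ε := by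
    rw [div_le_iff₀ hs0]
    rw [div_le_iff₀ hε] at hsε
    linarith
  have h9 := abs_nonneg (loc n I J (tri n) sg u v)
  linarith

end Pool.Agent.Y252.KS
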